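import Pool.Agent.Y714.KF.Stm2
import Pool.Agent.Y672.KF.Bij

set_option autoImplicit false
set_option linter.unusedSectionVars false

/-! KF2-BIJ: heights of reduced pairs, points and normalised reduced lattices with an additional
condition (adaptation of `Pool.Agent.Y672.KF.bij` of helper672). -/

namespace Pool.Agent.Z864.KF

open Pool.Agent.Y714.KF Pool.Agent.Y672.KF
open NumberField FractionalIdeal Module Finset ComplexConjugate
open scoped nonZeroDivisors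

section

variable {K : Type} [Field K] [NumberField K]

/-- a pair which generates the lattice of an independent pair is independent -/
theorem ind_of_Lt {P P' : K × K} (hP : Ind P) (h : Lt P = Lt P') : Ind P' := by
  intro a b hab
  obtain ⟨m, n, h1⟩ := mem_Lt.1 (h ▸ fst_mem_Lt P)
  obtain ⟨k, l, h2⟩ := mem_Lt.1 (h ▸ snd_mem_Lt P)
  have e0 : (((k * b - l * a : ℚ)) : K) * P.1 + ((-(m * b - n * a) : ℚ) : K) * P.2 = 0 := by
    rw [← h1, ← h2]
    push_cast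
    linear_combination ((n : K) * k - l * m) * hab
  obtain ⟨e1, e2⟩ := hP _ _ e0
  have e1' : (k : K) * b - l * a = 0 := by exact_mod_cast congrArg (fun q : ℚ => (q : K)) e1
  have e2' : -((m : K) * b - n * a) = 0 := by exact_mod_cast congrArg (fun q : ℚ => (q : K)) e2
  have e3 : (b : K) * P.1 + ((0 : ℚ) : K) * P.2 = 0 := by
    rw [← h1]
    push_cast
    linear_combination (n : K) * hab - P'.1 * e2'
  have e4 : (a : K) * P.1 + ((0 : ℚ) : K) * P.2 = 0 := by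
    rw [← h1]
    push_cast
    linear_combination (m : K) * hab + P'.2 * e2'
  exact ⟨(hP _ _ e4).1, (hP _ _ e3).1⟩

variable (K) in
/-- heights of reduced pairs, invariance of the height -/
theorem ht (h2 : S_DESC K) (h3 : S_GEN K) : S_HT K := by
  intro hodd hn
  have hn2 : 2 ≤ finrank ℚ K := by omega
  constructor
  · intro P hP hR
    have hE := E.one (hP.ind hn2).fst
    exact ht_eq h2 hodd hn (hE.nd hP) hR hE.symm
  · intro θ θ' hθ hr
    rw [h3 θ] at hθ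
    have hE := Rel.e (hθ.ind hn2) hr
    have hθ' : Nd ((1 : K), θ') := hE.nd hθ
    refine ⟨(h3 θ').2 hθ', ?_⟩
    obtain ⟨Q, hQ, ⟨a, b, c, d, hd, he⟩, -⟩ := h2 hodd hn _ hθ
    have hE' : E (1, θ) Q := by rw [he]; exact E.gl _ hd
    rw [ht_eq h2 hodd hn hθ hQ hE', ht_eq h2 hodd hn hθ' hQ (hE.symm.trans hE')]

variable (K) in
/-- the bijection with an additional condition -/
theorem bij2 (h1 : S_LOC K) (h2 : S_DESC K) (h3 : S_GEN K) (h4 : S_CR K) : S_BIJ2 K := by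
  classical
  intro hodd hn R hR1 hR2 κ B hB Qc hQc
  have hn2 : 2 ≤ finrank ℚ K := by omega
  obtain ⟨C0, -, hext⟩ := ineqs (J := K →+* ℂ) (by rw [card_emb]; exact hodd)
  set A : (FI K)ˣ → Set (Submodule ℤ K) := fun r =>
    {M ∈ SL (κ r) (r : FI K) (B * ((nm (r : FI K) : ℚ) : ℝ) ^ 2) |
      (∀ p : ℕ, p.Prime → Loc p r M) ∧ ∃ P : K × K, M = Lt P ∧ Qc (P.2 / P.1)} with hA
  have hnm : ∀ r : (FI K)ˣ, (0 : ℝ) < ((nm (r : FI K) : ℚ) : ℝ) := fun r => by
    exact_mod_cast nm_pos r.ne_zero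
  have hfin : ∀ r, (A r).Finite := by
    intro r
    obtain ⟨C, -, hC⟩ := h4 hodd hn (κ r)
    exact (hC r (B * ((nm (r : FI K) : ℚ) : ℝ) ^ 2) (by have := hnm r; positivity)).1.subset
      fun M hM => hM.1
  -- the elements of A
  have hmem : ∀ r M, M ∈ A r → ∃ P : K × K, M = Lt P ∧ ct P = r ∧ Nd P ∧ Nz (κ r) (vec P) ∧
      pm (vec P) ≤ B * ((nm (r : FI K) : ℚ) : ℝ) ^ 2 ∧ Red P ∧ Qc (P.2 / P.1) := by
    rintro r M ⟨⟨P, rfl, e1, e2, e3, e4⟩, e5, P', e8, e9⟩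
    obtain ⟨e6, e7⟩ := (h1 hodd r P (e2.ind hn2) e1).1 e5
    have e10 : Ind P' := ind_of_Lt (e2.ind hn2) e8
    have hE : E (1, P.2 / P.1) (1, P'.2 / P'.1) :=
      ((E.one (e2.ind hn2).fst).symm.trans (E.of_Lt (e2.ind hn2) e10 e8)).trans (E.one e10.fst)
    have hN : Nd ((1 : K), P.2 / P.1) := (E.one (e2.ind hn2).fst).nd e2
    exact ⟨P, rfl, e6, e2, e3, e4, e7, (hQc _ _ ((h3 _).2 hN) hE.rel).2 e9⟩
  set T : Finset (Σ _ : (FI K)ˣ, Submodule ℤ K) := R.sigma fun r => (hfin r).toFinset with hT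
  have hTm : ∀ r M, (⟨r, M⟩ : Σ _ : (FI K)ˣ, Submodule ℤ K) ∈ T ↔ r ∈ R ∧ M ∈ A r := by
    intro r M
    rw [hT, mem_sigma]
    simp
  set f : (Σ _ : (FI K)ˣ, Submodule ℤ K) → Set K := fun x => cls x.2 with hf
  have hinj : Set.InjOn f T := by
    rintro ⟨r, M⟩ hx ⟨r', M'⟩ hx' hff
    obtain ⟨hr, hM⟩ := (hTm r M).1 hx
    obtain ⟨hr', hM'⟩ := (hTm r' M').1 hx'
    obtain ⟨P, rfl, c1, c2, c3, c4, c5, -⟩ := hmem r M hM
    obtain ⟨P', rfl, c1', c2', c3', c4', c5', -⟩ := hmem r' M' hM'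
    have g1 : P'.2 / P'.1 ∈ cls (Lt P') := by
      rw [cls_Lt hn2 c2']
      exact E.one (c2'.ind hn2).fst
    have g2 : P'.2 / P'.1 ∈ cls (Lt P) := by
      have : cls (Lt P) = cls (Lt P') := hff
      rw [this]; exact g1
    rw [cls_Lt hn2 c2] at g2
    have g3 : E P P' := g2.trans (E.one (c2'.ind hn2).fst).symm
    obtain ⟨y, hy, hL⟩ := exists_Lt_smul hn2 c2 c5 c5' g3
    have g4 : ct P' = sp y * ct P := by rw [ct_congr hL, ct_smul]
    rw [c1, c1'] at g4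
    have g5 : r' = r := hR2 r' hr' r hr y hy g4
    subst g5
    have g6 : sp y = 1 := by
      have : (r' : FI K) * (r' : FI K)⁻¹ = sp y * (r' : FI K) * (r' : FI K)⁻¹ := by rw [← g4]
      rw [mul_assoc, mul_inv_cancel₀ r'.ne_zero, mul_one] at this
      exact this.symm
    obtain ⟨u, rfl⟩ := exists_unit hy g6
    obtain ⟨-, -, e2, -⟩ := Lt_inv hodd hn2 (c2.smul hy) (c2'.ind hn2) hL.symm
    have hpos := c2.pm_pos hn2
    have g7 : Nz (κ r') (fun σ => σ ((u : 𝓞 K) : K) • vec P σ) := by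
      intro j
      rw [← vec_smul, ← e2]
      exact c3' j
    have g8 := unit_nz_unique hpos (hext _ hpos).1 hodd (κ r') u c3 g7
    have g9 : Lt P' = Lt P := by
      rw [hL]
      rcases g8 with rfl | rfl
      · simp
      · ext z
        rw [mem_Lt_smul (by simp), Units.val_neg, Units.val_one]
        have h0 : ((-1 : 𝓞 K) : K) = -1 := by simp
        have : ((-1 : 𝓞 K) : K)⁻¹ * z = -z := by
          rw [h0]
          norm_num
        rw [this, Submodule.neg_mem_iff]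
    rw [g9]
  have himg : {C : Set K | ∃ θ : K, IntermediateField.adjoin ℚ {θ} = ⊤ ∧ C = {θ' | Rel K θ θ'} ∧
      Pool.Agent.Y714.KF.ht K θ ≤ B ∧ Qc θ} = ↑(T.image f) := by
    ext C
    rw [Finset.mem_coe, mem_image]
    constructor
    · rintro ⟨θ, hθ, rfl, hB', hQθ⟩
      have hθ0 := hθ
      rw [h3 θ] at hθ
      obtain ⟨Q, hQ, ⟨a, b, c, d, hd, he⟩, -⟩ := h2 hodd hn _ hθ
      have hE : E (1, θ) Q := by rw [he]; exact E.gl _ hd
      have hQN := hE.nd hθ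
      have hct : ct Q ≠ 0 := ct_ne (hQN.ind hn2).fst
      obtain ⟨r, hr, x, hx, hxr⟩ := hR1 (Units.mk0 (ct Q) hct)
      rw [Units.val_mk0] at hxr
      have e1 : ct (x⁻¹ • Q) = r := by
        rw [ct_smul, hxr, ← mul_assoc, ← sp_mul, inv_mul_cancel₀ hx]
        rw [show sp (1 : K) = 1 from spanSingleton_one, one_mul]
      have hQ1 : Nd (x⁻¹ • Q) := hQN.smul (inv_ne_zero hx)
      have hpos := hQ1.pm_pos hn2
      obtain ⟨u, hu⟩ := exists_unit_nz hpos (hext _ hpos).1 (κ r)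
      have hu0 : ((u : 𝓞 K) : K) ≠ 0 := Units.coe_ne_zero u
      set Q2 : K × K := ((u : 𝓞 K) : K) • (x⁻¹ • Q) with hQ2
      have e2 : ct Q2 = r := by rw [hQ2, ct_smul, e1, sp_unit, one_mul]
      have e3 : Nd Q2 := hQ1.smul hu0
      have e4 : Red Q2 := (hQ.smul (inv_ne_zero hx)).smul hu0
      have e5 : Nz (κ r) (vec Q2) := by rw [hQ2, vec_smul]; exact hu
      have e6 : E (1, θ) Q2 := (hE.trans (E.smul Q (inv_ne_zero hx))).trans (E.smul _ hu0)
      have e7 : Pool.Agent.Y714.KF.ht K θ = hp K Q2 := ht_eq h2 hodd hn hθ e4 e6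
      have e8 : Qc (Q2.2 / Q2.1) :=
        (hQc θ _ hθ0 (e6.trans (E.one (e3.ind hn2).fst)).rel).1 hQθ
      refine ⟨⟨r, Lt Q2⟩, (hTm _ _).2 ⟨hr, ⟨Q2, rfl, e2.le, e3, e5, ?_⟩, ?_, Q2, rfl, e8⟩, ?_⟩
      · rw [e7, hp, e2, div_le_iff₀ (by have := hnm r; positivity)] at hB'
        exact hB'
      · exact (h1 hodd r Q2 (e3.ind hn2) e2.le).2 ⟨e2, e4⟩
      · exact cls_eq hn2 hθ e6
    · rintro ⟨⟨r, M⟩, hx, rfl⟩
      obtain ⟨hr, hM⟩ := (hTm r M).1 hx
      obtain ⟨P, rfl, c1, c2, c3, c4, c5, c6⟩ := hmem r M hM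
      have hE := E.one (c2.ind hn2).fst
      have hN : Nd ((1 : K), P.2 / P.1) := hE.nd c2
      refine ⟨P.2 / P.1, (h3 _).2 hN, cls_eq hn2 hN hE.symm, ?_, c6⟩
      rw [ht_eq h2 hodd hn hN c5 hE.symm, hp, c1, div_le_iff₀ (by have := hnm r; positivity)]
      exact c4
  rw [himg, Set.ncard_coe_finset, card_image_of_injOn hinj, hT, card_sigma]
  refine sum_congr rfl fun r _ => ?_
  rw [← Set.ncard_eq_toFinset_card _ (hfin r)]

end

end Pool.Agent.Z864.KF
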